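import Pool.Agent.Helper62.NT.Goals

/-!
Project NT (MP_8ff381_an), packet RTB: basic facts on rooted real trees
-/

set_option autoImplicit false

namespace Pool.Agent.Helper24.NT.RTB

open Pool.Agent.Helper62.NT

variable {H : Type} [MetricSpace H] (R : RT H)

theorem gp_self (x : H) : R.gp x x = R.dep x := by
  have h := R.dist_eq x x
  rw [dist_self] at h
  linarith

theorem dep_nonneg (x : H) : 0 ≤ R.dep x := (R.gp_nonneg x x).trans (R.gp_le x x)

theorem gp_le' (x y : H) : R.gp x y ≤ R.dep y := by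
  rw [R.gp_comm]
  exact R.gp_le y x

theorem three (x : H) (t : ℝ) (h0 : 0 ≤ t) (h1 : t ≤ R.dep x) : R.le (R.res x t) x ∧
    R.gp x (R.res x t) = t ∧ dist x (R.res x t) = R.dep x - t := by
  have hd := R.dep_res x t h0 h1
  have h2 : R.res x t = R.res (R.res x t) t := by
    have := R.res_dep (R.res x t)
    rw [hd] at this
    exact this.symm
  have h3 := (R.res_eq x (R.res x t) t h0 h1 (le_of_eq hd.symm)).1 h2
  have h4 := gp_le' R x (R.res x t)
  rw [hd] at h4
  have h5 : R.gp x (R.res x t) = t := le_antisymm h4 h3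
  refine ⟨⟨by rw [hd]; exact h1, by rw [hd]⟩, h5, ?_⟩
  rw [R.dist_eq, h5, hd]
  ring

theorem four (x y z : H) : min (R.gp x z) (R.gp z y) ≤ R.gp x y := by
  set t := min (R.gp x z) (R.gp z y) with ht
  have h0 : 0 ≤ t := le_min (R.gp_nonneg _ _) (R.gp_nonneg _ _)
  have h1 : t ≤ R.gp x z := min_le_left _ _
  have h2 : t ≤ R.gp z y := min_le_right _ _
  have hx := h1.trans (R.gp_le x z)
  have hz := h2.trans (R.gp_le z y)
  have hy := h2.trans (gp_le' R z y)
  have e1 := (R.res_eq x z t h0 hx hz).2 h1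
  have e2 := (R.res_eq z y t h0 hz hy).2 h2
  exact (R.res_eq x y t h0 hx hy).1 (e1.trans e2)

theorem five (p q : H) : R.le p q ↔ R.gp p q = R.dep p := by
  have hp := dep_nonneg R p
  constructor
  · rintro ⟨h1, h2⟩
    apply le_antisymm (R.gp_le p q)
    apply (R.res_eq p q (R.dep p) hp (le_refl _) h1).1
    rw [h2, R.res_dep]
  · intro h
    have h1 : R.dep p ≤ R.dep q := by
      rw [← h]
      exact gp_le' R p q
    refine ⟨h1, ?_⟩
    rw [← (R.res_eq p q (R.dep p) hp (le_refl _) h1).2 (le_of_eq h.symm), R.res_dep]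

theorem le_of (p q : H) (h : R.dep p ≤ R.gp p q) : R.le p q :=
  (five R p q).2 (le_antisymm (R.gp_le p q) h)

theorem t : Pool.Agent.Helper62.NT.S_RTB := by
  intro H _ R
  refine ⟨fun x => ⟨dep_nonneg R x, gp_self R x⟩, gp_le' R, three R, four R, five R, ?_, ?_, ?_, ?_,
    ?_, ?_⟩
  · intro p q r h1 h2
    apply le_of
    have e1 := (five R p q).1 h1
    have e2 := (five R q r).1 h2
    have h := four R p r q
    rw [e1, e2] at h
    exact (le_min (le_refl _) h1.1).trans h
  · intro p q r h1 h2 h3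
    apply le_of
    have e1 := (five R p r).1 h1
    have e2 := (five R q r).1 h2
    have h := four R p q r
    rw [e1, R.gp_comm r q, e2] at h
    exact (le_min (le_refl _) h3).trans h
  · intro x y z w
    have h1 := four R x y z
    have h2 := four R x y w
    have h3 := four R z w x
    have h4 := four R z w y
    rw [R.gp_comm z y] at h1
    rw [R.gp_comm w y] at h2
    rw [R.gp_comm z x] at h3
    rw [R.gp_comm z y] at h4
    rw [min_le_iff] at h1 h2 h3 h4
    rw [R.dist_eq x y, R.dist_eq z w, R.dist_eq x z, R.dist_eq y w, R.dist_eq x w, R.dist_eq y z,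
      le_max_iff]
    by_contra hcon
    rw [not_or, not_le, not_le] at hcon
    obtain ⟨c1, c2⟩ := hcon
    rcases h1 with h1 | h1 <;> rcases h2 with h2 | h2 <;> rcases h3 with h3 | h3 <;>
      rcases h4 with h4 | h4 <;> linarith
  · rintro p q ⟨h1, h2⟩ ⟨h3, h4⟩
    have h5 : R.dep p = R.dep q := le_antisymm h1 h3
    rw [h5, R.res_dep] at h2
    exact h2.symm
  · intro x s t h0 h1 h2
    have h3 := (three R (R.res x t) s h0 (by rw [R.dep_res x t (h0.trans h1) h2]; exact h1)).2.2
    rw [R.res_res x s t h0 h1 h2, R.dep_res x t (h0.trans h1) h2, dist_comm] at h3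
    exact h3
  · rintro p q x t ⟨h1, h2⟩ h0 ht ⟨h3, h4⟩
    have h5 := R.res_res x t (R.dep p) h0 ht h1
    rw [h2] at h5
    rw [R.dep_res x t h0 (ht.trans h1)] at h4
    rw [h5, h4]

end Pool.Agent.Helper24.NT.RTB
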